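import Pool.Agent.H519Z.Bicomb.Defs
import Pool.Agent.H519Z.Bicomb.Main

open Pool.Agent.H519Z.Bicomb

namespace Pool.Agent.Results.MP_1cfa3b_gt.NoOnePointBoundary

universe u v

/-- For every proper metric space with a consistent and conical geodesic bicombing `σ` on which
some group acts cocompactly by isometries, the boundary is empty or has at least two points. -/
theorem result :
    ∀ (X : Type u) [MetricSpace X] [ProperSpace X] (σ : X × X × unitInterval → X),
      IsBicombing σ → IsConsistent σ → IsConical σ →
      ∀ (G : Type v) [Group G] [MulAction G X] [IsIsometricSMul G X],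
        CompactSpace (Quotient (MulAction.orbitRel G X)) →
        IsEmpty (Boundary σ) ∨ Nontrivial (Boundary σ) :=
  fun _ _ _ _ hσ hc _ G _ _ _ _ => main hσ hc G

end Pool.Agent.Results.MP_1cfa3b_gt.NoOnePointBoundary
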